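import Mathlib
import Pool.Agent.Run7.h678.DG.Tour

/-!
# Intrinsically `n`-linked digraphs and tournaments with a linear number of vertices

For every `n ≥ 2` the complete symmetric digraph on `12 (n - 1)` vertices and a tournament on
`24 (n - 1)` vertices are intrinsically `n`-linked.
-/

namespace Pool.Agent.Results.MP_4fe900_gt.LinearNLinked

open Run7.h678.DG

/-- For every `n ≥ 2` the complete symmetric digraph on `12 (n - 1)` vertices is intrinsically
`n`-linked, and there is an intrinsically `n`-linked tournament on `24 (n - 1)` vertices. -/
theorem result : ∀ n : ℕ, 2 ≤ n →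
    IntrinsicallyLinked n (completeSymmetric (12 * (n - 1))) ∧
    ∃ D : DirectedGraph, IsTournament D ∧ Nat.card D.V = 24 * (n - 1) ∧
      IntrinsicallyLinked n D := by
  intro n hn
  refine ⟨main hn, splitTournament (12 * (n - 1)), splitTournament_isTournament _, ?_,
    main_tournament hn⟩
  rw [card_splitTournament]
  omega

end Pool.Agent.Results.MP_4fe900_gt.LinearNLinked
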